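import Pool.Agent.N119.PS.Stm3

set_option autoImplicit false

/-!
# Project PSC3 (helper119), leaf DEN: existence of Patterson-Sullivan densities

Author: helper451.
-/

namespace Pool.Agent.N451.PSC3.DEN

open Pool.Agent.N119.PS Pool.Agent.H472R3 Pool.Agent.H67R3.FSR Pool.Agent.H67R4.SR MeasureTheory
  Topology Filter
open scoped ENNReal NNReal

variable {N : ℕ}

/-! ## Words -/

theorem head_inv_append (l : List (Lt N)) (b : Lt N) (hr : FreeGroup.IsReduced (l ++ [b])) :
    ((FreeGroup.mk (l ++ [b]) : FreeGroup (Fin N))⁻¹).toWord.head? = some (inv' b) := by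
  rw [FreeGroup.toWord_inv, FreeGroup.toWord_mk, hr.reduce_eq]
  simp [FreeGroup.invRev, inv']

/-- Cancellation in a product. -/
theorem split : ∀ (l : List (Lt N)) (b : FreeGroup (Fin N)), FreeGroup.IsReduced l →
    ∃ p c q : List (Lt N), l = p ++ c ∧ b.toWord = FreeGroup.invRev c ++ q ∧
      (FreeGroup.mk l * b).toWord = p ++ q := by
  intro l
  induction l using List.reverseRecOn with
  | nil =>
    intro b _
    refine ⟨[], [], b.toWord, rfl, by simp [FreeGroup.invRev], ?_⟩
    have : (FreeGroup.mk [] : FreeGroup (Fin N)) = 1 := rfl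
    rw [this, one_mul, List.nil_append]
  | append_singleton l x ih =>
    intro b hr
    have hrl : FreeGroup.IsReduced l := (List.isChain_append.mp hr).1
    have ex : (FreeGroup.mk (l ++ [x]) : FreeGroup (Fin N)) = FreeGroup.mk l * lt x := by
      rw [lt, FreeGroup.mul_mk]
    rcases hb : b.toWord with _ | ⟨y, lb⟩
    · have hb1 : b = 1 := by
        apply FreeGroup.toWord_injective
        rw [hb, FreeGroup.toWord_one]
      refine ⟨l ++ [x], [], [], by simp, by simp [FreeGroup.invRev], ?_⟩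
      rw [hb1, mul_one, FreeGroup.toWord_mk, hr.reduce_eq, List.append_nil]
    · have hrb : FreeGroup.IsReduced (y :: lb) := by
        rw [← hb]; exact FreeGroup.isReduced_toWord
      have eb : b = lt y * FreeGroup.mk lb := by
        rw [← mk_cons', ← hb, FreeGroup.mk_toWord]
      have hrlb : FreeGroup.IsReduced lb := by
        unfold FreeGroup.IsReduced at hrb ⊢
        exact hrb.tail
      by_cases hy : y = inv' x
      · obtain ⟨p, c, q, h1, h2, h3⟩ := ih (FreeGroup.mk lb) hrl
        rw [FreeGroup.toWord_mk, hrlb.reduce_eq] at h2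
        refine ⟨p, c ++ [x], q, by rw [h1, List.append_assoc], ?_, ?_⟩
        · rw [h2, hy]
          simp [FreeGroup.invRev, inv']
        · rw [← h3, ex, eb, hy, lt_inv']
          congr 1
          group
      · refine ⟨l ++ [x], [], y :: lb, by simp, by simp [FreeGroup.invRev], ?_⟩
        have hr2 : FreeGroup.IsReduced (l ++ [x] ++ y :: lb) := by
          unfold FreeGroup.IsReduced at hr hrb ⊢
          rw [List.isChain_append]
          refine ⟨hr, hrb, ?_⟩
          intro z hz w hw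
          simp only [List.getLast?_append, List.getLast?_singleton, Option.some_or,
            Option.mem_def, Option.some.injEq] at hz
          simp only [List.head?_cons, Option.mem_def, Option.some.injEq] at hw
          subst hz
          subst hw
          rw [reduced_iff]
          exact hy
        have e : (FreeGroup.mk (l ++ [x]) * b : FreeGroup (Fin N)) =
            FreeGroup.mk (l ++ [x] ++ y :: lb) := by
          rw [← FreeGroup.mk_toWord (x := b), hb, FreeGroup.mul_mk]
        rw [e, FreeGroup.toWord_mk, hr2.reduce_eq]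

theorem word_mk {l : List (Lt N)} (h : FreeGroup.IsReduced l) :
    (FreeGroup.mk l : FreeGroup (Fin N)).toWord = l := by
  rw [FreeGroup.toWord_mk, h.reduce_eq]

/-- Common suffix of `u` and `g * u`. -/
theorem suffix (g u : FreeGroup (Fin N)) : ∃ t t' v : FreeGroup (Fin N),
    u.norm ≤ g.norm + v.norm ∧ u = t' * v ∧ g * u = t * v ∧
    u.toWord = t'.toWord ++ v.toWord ∧ (g * u).toWord = t.toWord ++ v.toWord := by
  obtain ⟨p, c, q, h1, h2, h3⟩ := split g.toWord u FreeGroup.isReduced_toWord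
  rw [FreeGroup.mk_toWord] at h3
  have hu : FreeGroup.IsReduced (FreeGroup.invRev c ++ q) := by
    rw [← h2]; exact FreeGroup.isReduced_toWord
  have hgu : FreeGroup.IsReduced (p ++ q) := by
    rw [← h3]; exact FreeGroup.isReduced_toWord
  have r1 : FreeGroup.IsReduced (FreeGroup.invRev c) := (List.isChain_append.mp hu).1
  have r2 : FreeGroup.IsReduced q := (List.isChain_append.mp hu).2.1
  have r3 : FreeGroup.IsReduced p := (List.isChain_append.mp hgu).1
  refine ⟨FreeGroup.mk p, FreeGroup.mk (FreeGroup.invRev c), FreeGroup.mk q, ?_, ?_, ?_, ?_, ?_⟩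
  · have e1 : u.norm = c.length + q.length := by
      unfold FreeGroup.norm
      rw [h2, List.length_append, FreeGroup.invRev_length]
    have e2 : g.norm = p.length + c.length := by
      unfold FreeGroup.norm
      rw [h1, List.length_append]
    have e3 : (FreeGroup.mk q : FreeGroup (Fin N)).norm = q.length := by
      unfold FreeGroup.norm
      rw [word_mk r2]
    omega
  · rw [FreeGroup.mul_mk, ← h2, FreeGroup.mk_toWord]
  · rw [FreeGroup.mul_mk, ← h3, FreeGroup.mk_toWord]
  · rw [word_mk r1, word_mk r2, h2]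
  · rw [word_mk r3, word_mk r2, h3]

/-! ## Rays -/

theorem det (ξ : Bd N) (v : FreeGroup (Fin N)) {n : ℕ} (hn : v.norm + 2 ≤ n) :
    (v⁻¹ * ray ξ n).toWord.head? = some (ξ.1 v) := by
  have hconst : ∀ j, (v⁻¹ * ray ξ (n + j)).toWord.head? = (v⁻¹ * ray ξ n).toWord.head? := by
    intro j
    induction j with
    | zero => rfl
    | succ j ih =>
      rw [← ih]
      apply head_close
      have e : (v⁻¹ * ray ξ (n + j))⁻¹ * (v⁻¹ * ray ξ (n + (j + 1))) =
          lt (ξ.1 (ray ξ (n + j))) := by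
        rw [← add_assoc, ray]; group
      rw [e, norm_lt]
      have h4 := FreeGroup.norm_mul_le v (v⁻¹ * ray ξ (n + j))
      rw [mul_inv_cancel_left, ray_norm] at h4
      omega
  obtain ⟨m, hm1, hm2⟩ := ((ray_conv ξ v).and (eventually_ge_atTop n)).exists
  obtain ⟨j, rfl⟩ := Nat.exists_eq_add_of_le hm2
  rw [← hconst j]
  exact hm1

theorem pre {ξ ζ : Bd N} {m n : ℕ} (h : ray ξ m = ray ζ m) (hn : n ≤ m) : ray ξ n = ray ζ n := by
  obtain ⟨j, rfl⟩ := Nat.exists_eq_add_of_le hn
  obtain ⟨t, ht⟩ := ray_pfx ξ n j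
  obtain ⟨s, hs⟩ := ray_pfx ζ n j
  rw [h, hs] at ht
  apply FreeGroup.toWord_injective
  have h1 : (ray ζ n).toWord.length = (ray ξ n).toWord.length := by
    have a1 := ray_norm ζ n
    have a2 := ray_norm ξ n
    unfold FreeGroup.norm at a1 a2
    rw [a1, a2]
  exact (List.append_inj ht h1).1.symm

theorem on_iff (ξ : Bd N) (w : FreeGroup (Fin N)) :
    ray ξ w.norm = w ↔ (w⁻¹).toWord.head? ≠ some (ξ.1 w) := by
  constructor
  · intro h
    rcases hn : w.norm with _ | n
    · have : w = 1 := FreeGroup.norm_eq_zero.mp hn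
      subst this
      simp
    · rw [hn] at h
      have hw := ray_word ξ n
      have hr : FreeGroup.IsReduced ((ray ξ n).toWord ++ [ξ.1 (ray ξ n)]) := by
        rw [← hw]; exact FreeGroup.isReduced_toWord
      have h1 := head_inv_append _ _ hr
      rw [← hw, FreeGroup.mk_toWord, h] at h1
      rw [h1]
      intro h2
      have h3 := (Option.some.inj h2).symm
      have h4 := ξ.2 (ray ξ n) (ξ.1 (ray ξ n))
      have h5 : ray ξ n * lt (ξ.1 (ray ξ n)) = w := h
      rw [h5] at h4
      exact h4.mp h3 rfl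
  · have key : ∀ l : List (Lt N), FreeGroup.IsReduced l →
        ((FreeGroup.mk l : FreeGroup (Fin N))⁻¹).toWord.head? ≠ some (ξ.1 (FreeGroup.mk l)) →
        ray ξ l.length = FreeGroup.mk l := by
      intro l
      induction l using List.reverseRecOn with
      | nil => intro _ _; rfl
      | append_singleton l b ih =>
        intro hr h
        rw [head_inv_append l b hr] at h
        have ex : (FreeGroup.mk (l ++ [b]) : FreeGroup (Fin N)) = FreeGroup.mk l * lt b := by
          rw [lt, FreeGroup.mul_mk]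
        have h1 : ξ.1 (FreeGroup.mk l * lt b) ≠ inv' b := by
          intro h2
          apply h
          rw [ex, h2]
        have h2 : ξ.1 (FreeGroup.mk l) = b := by
          by_contra hc
          exact h1 ((ξ.2 _ b).mpr hc)
        have hrl : FreeGroup.IsReduced l := (List.isChain_append.mp hr).1
        have h3 : ((FreeGroup.mk l : FreeGroup (Fin N))⁻¹).toWord.head? ≠
            some (ξ.1 (FreeGroup.mk l)) := by
          rw [h2]
          rcases List.eq_nil_or_concat l with hl | ⟨l', c, hl⟩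
          · subst hl
            have : (FreeGroup.mk [] : FreeGroup (Fin N)) = 1 := rfl
            rw [this]
            simp
          · rw [List.concat_eq_append] at hl
            subst hl
            rw [head_inv_append l' c hrl]
            intro h4
            have h5 := Option.some.inj h4
            have h6 := (List.isChain_append.mp hr).2.2 c (by simp) b (by simp)
            rw [reduced_iff] at h6
            exact h6 h5.symm
        rw [List.length_append, List.length_singleton, ray, ih hrl h3, h2, ex]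
    intro h
    have h1 := key w.toWord FreeGroup.isReduced_toWord (by rwa [FreeGroup.mk_toWord])
    rwa [FreeGroup.mk_toWord] at h1

theorem ray_smul (ξ : Bd N) (g w : FreeGroup (Fin N)) (h : g.norm < w.norm) :
    ray (g • ξ) (g * w).norm = g * w ↔ ray ξ w.norm = w := by
  rw [on_iff, on_iff, Bd.smul_apply, inv_mul_cancel_left]
  have e : ((g * w)⁻¹).toWord.head? = (w⁻¹).toWord.head? := by
    apply head_close
    have : (w⁻¹)⁻¹ * (g * w)⁻¹ = g⁻¹ := by group
    rw [this, FreeGroup.norm_inv_eq, FreeGroup.norm_inv_eq]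
    exact h
  rw [e]

/-! ## Cylinders in the boundary -/

/-- The ends whose ray passes through `u`. -/
def E (u : FreeGroup (Fin N)) : Set (Bd N) := {ξ | ray ξ u.norm = u}

theorem isOpen_E (u : FreeGroup (Fin N)) : IsOpen (E u) := by
  rw [isOpen_iff_mem_nhds]
  intro ξ hξ
  filter_upwards [ray_locally ξ u.norm] with ζ hζ
  exact hζ.trans hξ

theorem mem_E_ray (ξ : Bd N) (n : ℕ) : ξ ∈ E (ray ξ n) := by
  show ray ξ (ray ξ n).norm = ray ξ n
  rw [ray_norm]

/-- A base of the topology. -/
theorem exists_E {O : Set (Bd N)} (hO : IsOpen O) {ξ : Bd N} (hξ : ξ ∈ O) (n0 : ℕ) :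
    ∃ n, n0 ≤ n ∧ E (ray ξ n) ⊆ O := by
  by_contra hcon
  push Not at hcon
  have h1 : ∀ n, ∃ ζ : Bd N, ray ζ (n0 + n) = ray ξ (n0 + n) ∧ ζ ∉ O := by
    intro n
    obtain ⟨ζ, h1, h2⟩ := Set.not_subset.mp (hcon (n0 + n) (Nat.le_add_right _ _))
    refine ⟨ζ, ?_, h2⟩
    have h3 : ray ζ (ray ξ (n0 + n)).norm = ray ξ (n0 + n) := h1
    rwa [ray_norm] at h3
  choose ζ hζ1 hζ2 using h1
  have h2 : Tendsto ζ atTop (𝓝 ξ) := by
    have hind : IsInducing (fun ξ : Bd N => ξ.1) := ⟨rfl⟩
    rw [hind.tendsto_nhds_iff, tendsto_pi_nhds]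
    intro v
    refine tendsto_const_nhds.congr' ?_
    filter_upwards [eventually_ge_atTop (v.norm + 2)] with n hn
    have a1 := det ξ v (n := n0 + n) (by omega)
    have a2 := det (ζ n) v (n := n0 + n) (by omega)
    rw [hζ1 n, a1] at a2
    exact Option.some.inj a2
  obtain ⟨n, hn⟩ := (h2.eventually (hO.mem_nhds hξ)).exists
  exact hζ2 n hn

theorem borel_eq (n0 : ℕ) : (inferInstance : MeasurableSpace (Bd N)) =
    MeasurableSpace.generateFrom {s | ∃ u : FreeGroup (Fin N), n0 ≤ u.norm ∧ s = E u} := by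
  apply le_antisymm
  · have hb : (inferInstance : MeasurableSpace (Bd N)) = borel (Bd N) := rfl
    rw [hb]
    apply MeasurableSpace.generateFrom_le
    intro O hO
    have hO' : IsOpen O := hO
    have e : O = ⋃ u ∈ {u : FreeGroup (Fin N) | n0 ≤ u.norm ∧ E u ⊆ O}, E u := by
      ext ξ
      simp only [Set.mem_iUnion]
      constructor
      · intro hξ
        obtain ⟨n, hn1, hn2⟩ := exists_E hO' hξ n0
        exact ⟨ray ξ n, ⟨by rw [ray_norm]; exact hn1, hn2⟩, mem_E_ray ξ n⟩
      · rintro ⟨u, hu, hξ⟩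
        exact hu.2 hξ
    rw [e]
    refine MeasurableSet.biUnion (Set.to_countable _) fun u hu => ?_
    exact MeasurableSpace.measurableSet_generateFrom ⟨u, hu.1, rfl⟩
  · apply MeasurableSpace.generateFrom_le
    rintro s ⟨u, -, rfl⟩
    exact (isOpen_E u).measurableSet

theorem isPi (n0 : ℕ) : IsPiSystem {s | ∃ u : FreeGroup (Fin N), n0 ≤ u.norm ∧ s = E u} := by
  have key : ∀ u v : FreeGroup (Fin N), u.norm ≤ v.norm → (E u ∩ E v).Nonempty →
      E u ∩ E v = E v := by
    rintro u v huv ⟨ξ, h1, h2⟩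
    apply Set.inter_eq_right.mpr
    intro ζ hζ
    have h3 : ray ζ v.norm = ray ξ v.norm := by
      rw [show ray ζ v.norm = v from hζ, show ray ξ v.norm = v from h2]
    exact (pre h3 huv).trans h1
  rintro _ ⟨u, hu, rfl⟩ _ ⟨v, hv, rfl⟩ hne
  rcases le_total u.norm v.norm with h | h
  · exact ⟨v, hv, key u v h hne⟩
  · rw [Set.inter_comm] at hne ⊢
    exact ⟨u, hu, key v u h hne⟩

theorem meas_univ (μ : Measure (Bd N)) (n : ℕ) : μ Set.univ = ∑ u ∈ sph N n, μ (E u) := by
  have e : (Set.univ : Set (Bd N)) = ⋃ u ∈ sph N n, E u := by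
    ext ξ
    simp only [Set.mem_univ, Set.mem_iUnion, true_iff]
    exact ⟨ray ξ n, mem_sph.mpr (ray_norm ξ n), mem_E_ray ξ n⟩
  rw [e, measure_biUnion_finset]
  · intro u hu v hv huv
    have hu' := mem_sph.mp (Finset.mem_coe.mp hu)
    have hv' := mem_sph.mp (Finset.mem_coe.mp hv)
    rw [Function.onFun, Set.disjoint_left]
    intro ξ h1 h2
    apply huv
    rw [← show ray ξ u.norm = u from h1, ← show ray ξ v.norm = v from h2, hu', hv']
  · intro u _
    exact (isOpen_E u).measurableSet

theorem meas_ext (μ ν : Measure (Bd N)) [IsFiniteMeasure μ] (n0 : ℕ)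
    (h : ∀ u : FreeGroup (Fin N), n0 ≤ u.norm → μ (E u) = ν (E u)) : μ = ν := by
  refine ext_of_generate_finite _ (borel_eq n0) (isPi n0) ?_ ?_
  · rintro _ ⟨u, hu, rfl⟩
    exact h u hu
  · rw [meas_univ μ n0, meas_univ ν n0]
    refine Finset.sum_congr rfl fun u hu => ?_
    exact h u (mem_sph.mp hu).ge

/-! ## Busemann functions -/

variable {A : FTree N} {x : A.T}

theorem measurable_ray (F : FreeGroup (Fin N) → ℝ) (n : ℕ) :
    Measurable fun ξ : Bd N => F (ray ξ n) := by
  apply Continuous.measurable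
  rw [continuous_iff_continuousAt]
  intro ξ
  refine tendsto_const_nhds.congr' ?_
  filter_upwards [ray_locally ξ n] with ζ hζ
  rw [hζ]

theorem buse_tendsto (h5 : S_APP) (hA : A.InCV) (ξ : Bd N) (y z : A.T) :
    Tendsto (fun n => dist y (ray ξ n • x) - dist z (ray ξ n • x)) atTop (𝓝 (buse A ξ y z)) := by
  obtain ⟨n0, hn0⟩ := (h5 N A hA).1 ξ x y z
  refine tendsto_const_nhds.congr' ?_
  filter_upwards [eventually_ge_atTop n0] with n hn
  exact (hn0 n hn).symm

theorem measurable_buse (h5 : S_APP) (hA : A.InCV) (y z : A.T) :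
    Measurable fun ξ : Bd N => buse A ξ y z := by
  obtain ⟨x⟩ := A.isRTree.nonempty
  refine measurable_of_tendsto_metrizable
    (f := fun n ξ => dist y (ray ξ n • x) - dist z (ray ξ n • x)) (fun n => ?_) ?_
  · exact measurable_ray (fun u => dist y (u • x) - dist z (u • x)) n
  · rw [tendsto_pi_nhds]
    intro ξ
    exact buse_tendsto h5 hA ξ y z

theorem buse_le (h5 : S_APP) (hA : A.InCV) (ξ : Bd N) (y z : A.T) :
    |buse A ξ y z| ≤ dist y z := by
  obtain ⟨x⟩ := A.isRTree.nonempty
  have h1 := (buse_tendsto (x := x) h5 hA ξ y z).abs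
  refine le_of_tendsto h1 (Eventually.of_forall fun n => ?_)
  exact abs_dist_sub_le y z (ray ξ n • x)

theorem dist_smul_L (g u : FreeGroup (Fin N)) :
    dist (g • x) (u • x) = (lenFn A x).L (g⁻¹ * u) := by
  rw [lenFn_L, ← A.isometric g x, mul_smul, smul_inv_smul]

/-- The Busemann function on a cylinder. -/
theorem buse_E (h5 : S_APP) (hA : A.InCV) {k : ℕ} (hM : Mem A x k) (g u : FreeGroup (Fin N))
    (hu : g.norm + k ≤ u.norm) {ξ : Bd N} (hξ : ξ ∈ E u) :
    buse A ξ (g • x) x = (lenFn A x).L (g⁻¹ * u) - (lenFn A x).L u := by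
  obtain ⟨n0, hn0⟩ := (h5 N A hA).1 ξ x (g • x) x
  obtain ⟨n, hn1, hn2⟩ : ∃ n, n0 ≤ n ∧ u.norm ≤ n := ⟨max n0 u.norm, le_max_left _ _, le_max_right _ _⟩
  rw [← hn0 n hn1]
  obtain ⟨j, rfl⟩ := Nat.exists_eq_add_of_le hn2
  obtain ⟨s, hs⟩ := ray_pfx ξ u.norm j
  rw [show ray ξ u.norm = u from hξ] at hs
  obtain ⟨t, t', v, h1, h2, h3, h4, h6⟩ := suffix g⁻¹ u
  rw [FreeGroup.norm_inv_eq] at h1
  have hkv : k ≤ v.norm := by omega
  have hrs : FreeGroup.IsReduced (u.toWord ++ s) := by
    rw [← hs]; exact FreeGroup.isReduced_toWord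
  have hs' : FreeGroup.IsReduced s := (List.isChain_append.mp hrs).2.1
  have hv : v.toWord ≠ [] := by
    intro h
    have : v.norm = 0 := by
      unfold FreeGroup.norm
      rw [h]; rfl
    have := hM.1
    omega
  obtain ⟨w, hw⟩ : ∃ w : FreeGroup (Fin N), w = FreeGroup.mk s := ⟨_, rfl⟩
  have hww : w.toWord = s := by rw [hw, word_mk hs']
  have er : ray ξ (u.norm + j) = u * w := by
    rw [hw, ← FreeGroup.mk_toWord (x := ray ξ (u.norm + j)), hs, ← FreeGroup.mul_mk,
      FreeGroup.mk_toWord]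
  have r1 : FreeGroup.IsReduced (t'.toWord ++ v.toWord ++ w.toWord) := by
    rw [hww, ← h4]; exact hrs
  have r2 : FreeGroup.IsReduced (v.toWord ++ w.toWord) := by
    rw [List.append_assoc] at r1
    exact (List.isChain_append.mp r1).2.1
  have r3 : FreeGroup.IsReduced (t.toWord ++ v.toWord ++ w.toWord) := by
    refine FreeGroup.IsReduced.append_overlap ?_ r2 hv
    rw [← h6]; exact FreeGroup.isReduced_toWord
  have m1 := hM.2 t' v w hkv r1
  have m2 := hM.2 t v w hkv r3
  rw [dist_smul_L, er]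
  have e1 : dist x ((u * w) • x) = (lenFn A x).L (u * w) := rfl
  have e2 : (lenFn A x).L (u * w) = (lenFn A x).L (t' * v * w) := by rw [← h2]
  have e3 : (lenFn A x).L u = (lenFn A x).L (t' * v) := by rw [← h2]
  rw [e1, ← mul_assoc, h3, e2, e3]
  linarith

/-! ## The density -/

/-- The family of measures. -/
noncomputable def nu (A : FTree N) (x : A.T) (ν0 : Measure (Bd N)) (y : A.T) : Measure (Bd N) :=
  ν0.withDensity fun ξ => ENNReal.ofReal (Real.exp (-critExp A * buse A ξ y x))

theorem measurable_dens (h5 : S_APP) (hA : A.InCV) (y z : A.T) :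
    Measurable fun ξ : Bd N => ENNReal.ofReal (Real.exp (-critExp A * buse A ξ y z)) :=
  ENNReal.measurable_ofReal.comp (Real.measurable_exp.comp
    ((measurable_buse h5 hA y z).const_mul _))

theorem conf (h5 : S_APP) (h6 : S_INV) (hA : A.InCV) (ν0 : Measure (Bd N)) (y z : A.T) :
    nu A x ν0 z = (nu A x ν0 y).withDensity fun ξ =>
      ENNReal.ofReal (Real.exp (-critExp A * buse A ξ z y)) := by
  unfold nu
  rw [← withDensity_mul _ (measurable_dens h5 hA y x) (measurable_dens h5 hA z y)]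
  congr 1
  funext ξ
  rw [Pi.mul_apply, ← ENNReal.ofReal_mul (Real.exp_pos _).le, ← Real.exp_add,
    (h6 N A hA).2.1 ξ z y x]
  congr 2
  ring

theorem nu_self (h6 : S_INV) (hA : A.InCV) (ν0 : Measure (Bd N)) : nu A x ν0 x = ν0 := by
  unfold nu
  have h1 : ∀ ξ : Bd N, buse A ξ x x = 0 := by
    intro ξ
    have := (h6 N A hA).2.1 ξ x x x
    linarith
  have h2 : (fun ξ : Bd N => ENNReal.ofReal (Real.exp (-critExp A * buse A ξ x x))) = 1 := by
    funext ξ
    rw [h1 ξ, mul_zero, Real.exp_zero, ENNReal.ofReal_one]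
    rfl
  rw [h2, withDensity_one]

theorem nu_finite (h5 : S_APP) (hA : A.InCV) (ν0 : Measure (Bd N)) [IsFiniteMeasure ν0] (y : A.T) :
    IsFiniteMeasure (nu A x ν0 y) := by
  constructor
  unfold nu
  rw [withDensity_apply _ MeasurableSet.univ, Measure.restrict_univ]
  have h1 : ∫⁻ ξ : Bd N, ENNReal.ofReal (Real.exp (-critExp A * buse A ξ y x)) ∂ν0 ≤
      ∫⁻ _ : Bd N, ENNReal.ofReal (Real.exp (|critExp A| * dist y x)) ∂ν0 := by
    refine lintegral_mono fun ξ => ENNReal.ofReal_le_ofReal (Real.exp_le_exp.mpr ?_)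
    have h2 := buse_le h5 hA ξ y x
    calc -critExp A * buse A ξ y x ≤ |(-critExp A) * buse A ξ y x| := le_abs_self _
      _ = |critExp A| * |buse A ξ y x| := by rw [abs_mul, abs_neg]
      _ ≤ |critExp A| * dist y x := mul_le_mul_of_nonneg_left h2 (abs_nonneg _)
  refine h1.trans_lt ?_
  rw [lintegral_const]
  exact ENNReal.mul_lt_top ENNReal.ofReal_lt_top (measure_lt_top _ _)

/-- Equivariance at `x` implies equivariance. -/
theorem equiv_of (h5 : S_APP) (h6 : S_INV) (hA : A.InCV) (ν0 : Measure (Bd N))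
    (g : FreeGroup (Fin N)) (h : ν0.map (fun ξ => g • ξ) = nu A x ν0 (g • x)) (y : A.T) :
    (nu A x ν0 y).map (fun ξ => g • ξ) = nu A x ν0 (g • y) := by
  have hg : Measurable fun ξ : Bd N => g • ξ := (continuous_smul_bd g).measurable
  rw [conf (x := x) h5 h6 hA ν0 (g • x) (g • y), ← h]
  ext s hs
  rw [Measure.map_apply hg hs, withDensity_apply _ hs,
    setLIntegral_map hs (measurable_dens h5 hA _ _) hg]
  unfold nu
  rw [withDensity_apply _ (hg hs)]
  refine lintegral_congr fun ξ => ?_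
  rw [(h6 N A hA).1 g ξ y x]

theorem nu_E (h5 : S_APP) (hA : A.InCV) {k : ℕ} (hM : Mem A x k) (ν0 : Measure (Bd N))
    (g u : FreeGroup (Fin N)) (hu : g.norm + k ≤ u.norm) :
    nu A x ν0 (g • x) (E u) = ENNReal.ofReal (Real.exp (-critExp A *
      ((lenFn A x).L (g⁻¹ * u) - (lenFn A x).L u))) * ν0 (E u) := by
  have hm := (isOpen_E u).measurableSet
  unfold nu
  rw [withDensity_apply _ hm, ← setLIntegral_const]
  refine setLIntegral_congr_fun hm fun ξ hξ => ?_
  rw [buse_E h5 hA hM g u hu hξ]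

end Pool.Agent.N451.PSC3.DEN

open Pool.Agent.N119.PS Pool.Agent.H472R3 Pool.Agent.H67R3.FSR Pool.Agent.H67R4.SR MeasureTheory
  Topology Filter Pool.Agent.N451.PSC3.DEN in
/-- Existence of Patterson-Sullivan densities. -/
theorem Pool.Agent.N451.PSC3.DEN.t (h1 : S_BCL) (h2 : S_MEM) (h3 : S_EIG) (h4 : S_MSR)
    (h5 : S_APP) (h6 : S_INV) : S_DEN := by
  intro N hN A hA
  obtain ⟨x⟩ := A.isRTree.nonempty
  obtain ⟨C, hC⟩ := h1 N A hA x
  obtain ⟨k, hk1, -, hk2⟩ := h2 N A hA x C hC
  have hM : Mem A x k := ⟨hk1, hk2⟩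
  obtain ⟨Φ, hΦ0, ⟨u0, hu0, hu0'⟩, hΦ1, hΦ2⟩ := h3 N hN A hA x k hM
  obtain ⟨W, hW⟩ : ∃ W : FreeGroup (Fin N) → ℝ,
      W = fun u => Real.exp (-critExp A * (lenFn A x).L u) * Φ u := ⟨_, rfl⟩
  have hWu : ∀ u, W u = Real.exp (-critExp A * (lenFn A x).L u) * Φ u := fun u => by rw [hW]
  obtain ⟨ν0, hfin, hν0⟩ := h4 N k W
    (fun u => by rw [hWu]; exact mul_nonneg (Real.exp_pos _).le (hΦ0 u))
    (fun u hu => by
      rw [hWu, hΦ2 u hu, Finset.mul_sum]
      refine Finset.sum_congr rfl fun e _ => ?_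
      rw [hWu, ← mul_assoc, ← Real.exp_add]
      congr 2
      ring)
  have hE : ∀ u : FreeGroup (Fin N), k ≤ u.norm → ν0 (E u) = ENNReal.ofReal (W u) := hν0
  have hne0 : ν0 ≠ 0 := by
    intro h
    have h7 := hE u0 hu0.ge
    rw [h, Measure.coe_zero, Pi.zero_apply] at h7
    have h8 := ENNReal.ofReal_eq_zero.mp h7.symm
    rw [hWu] at h8
    have := mul_pos (Real.exp_pos (-critExp A * (lenFn A x).L u0)) hu0'
    linarith
  refine ⟨nu A x ν0, fun y => nu_finite h5 hA ν0 y, ?_, ?_, fun y z => conf h5 h6 hA ν0 y z⟩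
  · intro y hy
    apply hne0
    have h7 := conf (x := x) h5 h6 hA ν0 y x
    rw [hy, withDensity_zero_left, nu_self h6 hA] at h7
    exact h7
  · intro g y
    refine equiv_of h5 h6 hA ν0 g ?_ y
    have hg : Measurable fun ξ : Bd N => g • ξ := (continuous_smul_bd g).measurable
    refine meas_ext _ _ (2 * g.norm + k + 1) fun u hu => ?_
    have hn : u.norm ≤ g.norm + (g⁻¹ * u).norm := by
      have := FreeGroup.norm_mul_le g (g⁻¹ * u)
      rwa [mul_inv_cancel_left] at this
    rw [Measure.map_apply hg (isOpen_E u).measurableSet, nu_E h5 hA hM ν0 g u (by omega),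
      hE u (by omega)]
    have e1 : (fun ξ : Bd N => g • ξ) ⁻¹' E u = E (g⁻¹ * u) := by
      ext ξ
      have := ray_smul ξ g (g⁻¹ * u) (by omega)
      rw [mul_inv_cancel_left] at this
      exact this
    rw [e1, hE _ (by omega), ← ENNReal.ofReal_mul (Real.exp_pos _).le, hWu, hWu, ← mul_assoc,
      ← Real.exp_add]
    obtain ⟨t, t', v, a1, a2, a3, a4, a5⟩ := suffix g⁻¹ u
    rw [FreeGroup.norm_inv_eq] at a1
    have b1 : Φ u = Φ v := by
      rw [a2]
      refine hΦ1 t' v (by omega) ?_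
      rw [← a4]; exact FreeGroup.isReduced_toWord
    have b2 : Φ (g⁻¹ * u) = Φ v := by
      rw [a3]
      refine hΦ1 t v (by omega) ?_
      rw [← a5]; exact FreeGroup.isReduced_toWord
    rw [b1, b2]
    congr 3
    ring
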